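import Mathlib

/-!
# Project RED, module NORMVAL, part A: parity of norms and of inertia degrees
-/

set_option autoImplicit false

namespace Pool.Agent.Helper77.RED

open UniqueFactorizationMonoid IsDedekindDomain

variable {A B : Type} [CommRing A] [IsDomain A] [IsDiscreteValuationRing A] [CommRing B]
  [IsDedekindDomain B] [Algebra A B] [Module.Finite A B] [Module.IsTorsionFree A B]
  [PerfectField (FractionRing A)]

lemma relNorm_prime (P : Ideal B) (hP : Prime P) :
    Ideal.relNorm A P = (IsLocalRing.maximalIdeal A) ^ (P.inertiaDeg A) := by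
  have h0 : P ≠ ⊥ := hP.ne_zero
  haveI hprime : P.IsPrime := Ideal.isPrime_of_prime hP
  haveI : P.IsMaximal := hprime.isMaximal h0
  haveI : P.LiesOver (IsLocalRing.maximalIdeal A) := by
    constructor
    have : (P.under A).IsMaximal := Ideal.isMaximal_comap_of_isIntegral_of_isMaximal P
    exact (IsLocalRing.eq_maximalIdeal this).symm
  exact Ideal.relNorm_eq_pow_of_isMaximal P (IsLocalRing.maximalIdeal A)

lemma relNorm_span (z : B) (hz : z ≠ 0) :
    Ideal.relNorm A (Ideal.span {z}) = (IsLocalRing.maximalIdeal A) ^
      ((normalizedFactors (Ideal.span {z})).map (fun P => P.inertiaDeg A)).sum := by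
  have hz' : Ideal.span {z} ≠ (0 : Ideal B) := by
    rw [Ideal.zero_eq_bot, Ne, Ideal.span_singleton_eq_bot]; exact hz
  have h1 := prod_normalizedFactors_eq hz'
  have h2 : normalize (Ideal.span {z}) = Ideal.span {z} := by simp
  rw [h2] at h1
  conv_lhs => rw [← h1]
  rw [map_multiset_prod]
  have : ∀ s : Multiset (Ideal B), (∀ P ∈ s, Prime P) →
      (s.map (Ideal.relNorm A)).prod = (IsLocalRing.maximalIdeal A) ^
        (s.map (fun P => P.inertiaDeg A)).sum := by
    intro s
    induction s using Multiset.induction_on with
    | empty => intro _; simp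
    | cons P s ih =>
      intro hs
      rw [Multiset.map_cons, Multiset.prod_cons, Multiset.map_cons, Multiset.sum_cons,
        ih (fun Q hQ => hs Q (Multiset.mem_cons_of_mem hQ)),
        relNorm_prime P (hs P (Multiset.mem_cons_self P s)), pow_add]
  exact this _ (fun P hP => prime_of_normalized_factor P hP)

lemma key (z : B) (hz : z ≠ 0) (k : ℕ) (hk : Odd k)
    (h : Ideal.span {Algebra.intNorm A B z} = (IsLocalRing.maximalIdeal A) ^ k) :
    ∃ v : HeightOneSpectrum B, Odd (v.asIdeal.inertiaDeg A) ∧
      Odd (Multiset.count v.asIdeal (normalizedFactors (Ideal.span {z}))) := by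
  classical
  have h1 := relNorm_span (A := A) z hz
  rw [Ideal.relNorm_singleton, h] at h1
  have h0 : IsLocalRing.maximalIdeal A ≠ ⊥ := IsDiscreteValuationRing.not_a_field A
  have h2 : k = ((normalizedFactors (Ideal.span {z})).map (fun P => P.inertiaDeg A)).sum := by
    refine (IsLeftCancelMulZero.mul_left_cancel_of_ne_zero h0).pow_injective ?_ h1
    rw [Ideal.one_eq_top]
    exact (IsLocalRing.maximalIdeal.isMaximal A).ne_top
  rw [Finset.sum_multiset_map_count] at h2
  by_contra hcon
  push Not at hcon
  have : Even k := by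
    rw [h2]
    refine Finset.even_sum _ (fun P hP => ?_)
    rw [Multiset.mem_toFinset] at hP
    have hPp := prime_of_normalized_factor P hP
    rw [smul_eq_mul, Nat.even_mul]
    by_cases hf : Odd (P.inertiaDeg A)
    · left
      have := hcon ⟨P, Ideal.isPrime_of_prime hPp, hPp.ne_zero⟩ hf
      simpa using this
    · right
      simpa using hf
  exact (Nat.not_even_iff_odd.mpr hk) this

lemma val_eq {R : Type} [Field R] [Algebra B R] [IsFractionRing B R] (v : HeightOneSpectrum B)
    (z : B) (hz : z ≠ 0) :
    v.valuation R (algebraMap B R z) = WithZero.exp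
      (-(Multiset.count v.asIdeal (normalizedFactors (Ideal.span {z})) : ℤ)) := by
  classical
  rw [HeightOneSpectrum.valuation_of_algebraMap, HeightOneSpectrum.intValuation_if_neg v hz]
  congr 2
  have hz' : Ideal.span {z} ≠ (0 : Ideal B) := by
    rw [Ideal.zero_eq_bot, Ne, Ideal.span_singleton_eq_bot]; exact hz
  have hi : Irreducible v.asIdeal := v.irreducible
  rw [count_associates_factors_eq hz' v.isPrime v.ne_bot]

end Pool.Agent.Helper77.RED
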