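import Pool.Agent.Helper44.RED.StD
import Pool.Agent.Helper77.RED.NormValA

/-!
# Project RED, module NORMVAL: a norm of odd valuation and places of odd degree
-/

set_option autoImplicit false

namespace Pool.Agent.Helper77.RED

open UniqueFactorizationMonoid IsDedekindDomain Pool.Agent.Helper44.RED

section gen

variable {K A B : Type} [Field K] [CommRing A] [IsDomain A] [IsDiscreteValuationRing A]
  [CommRing B] [IsDedekindDomain B] [Algebra K A] [Algebra A B] [Algebra K B] [IsScalarTower K A B]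
  [Module.Finite A B]

lemma liesOver (v : HeightOneSpectrum B) :
    v.asIdeal.LiesOver (IsLocalRing.maximalIdeal A) := by
  have : v.asIdeal.IsMaximal := v.isMaximal
  constructor
  have : (v.asIdeal.under A).IsMaximal := Ideal.isMaximal_comap_of_isIntegral_of_isMaximal _
  exact (IsLocalRing.eq_maximalIdeal this).symm

lemma odd_res (v : HeightOneSpectrum B)
    (h1 : Odd (Module.finrank K (A ⧸ IsLocalRing.maximalIdeal A)))
    (h2 : Odd (v.asIdeal.inertiaDeg A)) :
    Odd (Module.finrank K (B ⧸ v.asIdeal)) := by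
  have hm : v.asIdeal.IsMaximal := v.isMaximal
  have := liesOver (A := A) v
  rw [Ideal.inertiaDeg_eq_of_isMaximal (IsLocalRing.maximalIdeal A)] at h2
  letI : Field (A ⧸ IsLocalRing.maximalIdeal A) := Ideal.Quotient.field _
  have : IsScalarTower K (A ⧸ IsLocalRing.maximalIdeal A) (B ⧸ v.asIdeal) := by
    refine IsScalarTower.of_algebraMap_eq (fun x => ?_)
    change Ideal.Quotient.mk _ (algebraMap K B x) = algebraMap (A ⧸ IsLocalRing.maximalIdeal A)
      (B ⧸ v.asIdeal) (Ideal.Quotient.mk _ (algebraMap K A x))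
    rw [Ideal.Quotient.algebraMap_mk_of_liesOver, ← IsScalarTower.algebraMap_apply]
  rw [← Module.finrank_mul_finrank K (A ⧸ IsLocalRing.maximalIdeal A) (B ⧸ v.asIdeal)]
  exact h1.mul h2

/-- the local ring of `v` is a place of odd degree -/
lemma oddPlace {R : Type} [Field R] [Algebra B R] [IsFractionRing B R] [Algebra K R]
    [IsScalarTower K B R] (v : HeightOneSpectrum B) (h : Odd (Module.finrank K (B ⧸ v.asIdeal))) :
    OddPlace K (HeightOneSpectrum.valuationSubringAtPrime R v) := by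
  have hm : v.asIdeal.IsMaximal := v.isMaximal
  haveI : IsLocalization.AtPrime (HeightOneSpectrum.valuationSubringAtPrime R v) v.asIdeal :=
    inferInstanceAs (IsLocalization (v.asIdeal.primeCompl) _)
  refine ⟨IsLocalization.AtPrime.isDiscreteValuationRing_of_dedekind_domain B v.ne_bot _, ?_⟩
  refine ⟨B ⧸ v.asIdeal, Ideal.Quotient.field _, inferInstance,
    (IsLocalization.AtPrime.equivQuotMaximalIdeal v.asIdeal
      (HeightOneSpectrum.valuationSubringAtPrime R v)).symm.toRingHom.comp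
        (Ideal.Quotient.mk _), h, ?_, ?_⟩
  · exact (RingEquiv.surjective (IsLocalization.AtPrime.equivQuotMaximalIdeal v.asIdeal
      (HeightOneSpectrum.valuationSubringAtPrime R v)).symm).comp Ideal.Quotient.mk_surjective
  · intro c
    have e : algebraMap K R c = algebraMap B R (algebraMap K B c) :=
      IsScalarTower.algebraMap_apply K B R c
    have e2 : algebraMap B R (algebraMap K B c) =
      ((algebraMap B (HeightOneSpectrum.valuationSubringAtPrime R v) (algebraMap K B c) :
        HeightOneSpectrum.valuationSubringAtPrime R v) : R) :=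
      IsScalarTower.algebraMap_apply B (HeightOneSpectrum.valuationSubringAtPrime R v) R _
    have hmem : algebraMap K R c ∈ HeightOneSpectrum.valuationSubringAtPrime R v := by
      rw [e, e2]; exact Subtype.coe_prop _
    refine ⟨hmem, ?_⟩
    have e3 : (⟨algebraMap K R c, hmem⟩ : HeightOneSpectrum.valuationSubringAtPrime R v) =
        algebraMap B (HeightOneSpectrum.valuationSubringAtPrime R v) (algebraMap K B c) := by
      apply Subtype.ext
      exact e.trans e2
    rw [e3]
    simp only [RingEquiv.toRingHom_eq_coe, RingHom.coe_comp, RingHom.coe_coe, Function.comp_apply]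
    rw [RingEquiv.symm_apply_eq,
      show algebraMap K (B ⧸ v.asIdeal) c = Ideal.Quotient.mk v.asIdeal (algebraMap K B c) from rfl,
      IsLocalization.AtPrime.equivQuotMaximalIdeal_apply_mk]

end gen

open WithZero in
theorem place_gen {K A F R : Type} [Field K] [CommRing A] [IsDomain A]
    [IsDiscreteValuationRing A] [Field F] [Field R] [CharZero F] [Algebra K A] [Algebra A F]
    [IsFractionRing A F] [Algebra F R] [Algebra A R] [IsScalarTower A F R]
    [FiniteDimensional F R] [Algebra K R] [IsScalarTower K A R]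
    (h1 : Odd (Module.finrank K (A ⧸ IsLocalRing.maximalIdeal A)))
    (z : R) (hz : z ≠ 0) (hzi : IsIntegral A z) (ϖ : A) (hϖ : Irreducible ϖ) (a : Aˣ) (k : ℕ)
    (hk : Odd k) (hN : Algebra.norm F z = algebraMap A F (a * ϖ ^ k)) :
    ∃ P : ValuationSubring R, OddPlace K P ∧ (∀ f : A, algebraMap A R f ∈ P) ∧
      ∃ w : Valuation R ℤᵐ⁰, w.valuationSubring = P ∧ ∃ m : ℤ, Odd m ∧ w z = WithZero.exp m := by
  classical
  have : Algebra.IsSeparable F R := inferInstance
  let B := integralClosure A R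
  haveI : IsDedekindDomain B := integralClosure.isDedekindDomain A F R
  haveI : IsFractionRing B R := integralClosure.isFractionRing_of_finite_extension F R
  haveI : Module.Finite A B := IsIntegralClosure.finite A F R B
  haveI : CharZero (FractionRing A) := by
    haveI : CharZero A := by
      constructor
      intro m n hmn
      have := congrArg (algebraMap A F) hmn
      simpa using this
    exact charZero_of_injective_algebraMap (IsFractionRing.injective A (FractionRing A))
  have : Module.IsTorsionFree A R := Module.IsTorsionFree.trans_faithfulSMul A F R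
  haveI : Module.IsTorsionFree A B := inferInstance
  have hkey := key (A := A) (B := B) ⟨z, hzi⟩ (fun h => hz (congrArg Subtype.val h)) k hk ?_
  · obtain ⟨v, hv1, hv2⟩ := hkey
    have hodd := odd_res (K := K) v h1 hv1
    refine ⟨HeightOneSpectrum.valuationSubringAtPrime R v, oddPlace v hodd, ?_,
      v.valuation R, (HeightOneSpectrum.valuationSubringAtPrime_eq_valuationSubring v).symm, _,
      ?_, val_eq v ⟨z, hzi⟩ (fun h => hz (congrArg Subtype.val h))⟩
    · intro f
      have e : algebraMap A R f =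
        ((algebraMap B (HeightOneSpectrum.valuationSubringAtPrime R v) (algebraMap A B f) :
          HeightOneSpectrum.valuationSubringAtPrime R v) : R) := rfl
      rw [e]; exact Subtype.coe_prop _
    · rw [odd_neg]
      exact_mod_cast hv2
  · have e1 : algebraMap A F (Algebra.intNorm A B ⟨z, hzi⟩) = Algebra.norm F z :=
      Algebra.algebraMap_intNorm (A := A) (K := F) (L := R) (B := B) ⟨z, hzi⟩
    rw [hN] at e1
    have e2 : Algebra.intNorm A B ⟨z, hzi⟩ = a * ϖ ^ k := IsFractionRing.injective A F e1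
    rw [e2, mul_comm, Ideal.span_singleton_mul_right_unit a.isUnit, ← Ideal.span_singleton_pow,
      hϖ.maximalIdeal_eq]

lemma isU_mul {F : Type} [Field F] {O : ValuationSubring F} {a b : F} (ha : IsU O a)
    (hb : IsU O b) : IsU O (a * b) :=
  ⟨mul_mem ha.1 hb.1, by rw [mul_inv]; exact mul_mem ha.2.1 hb.2.1, mul_ne_zero ha.2.2 hb.2.2⟩

lemma isU_pow {F : Type} [Field F] {O : ValuationSubring F} {a : F} (ha : IsU O a) (n : ℕ) :
    IsU O (a ^ n) :=
  ⟨pow_mem ha.1 n, by rw [← inv_pow]; exact pow_mem ha.2.1 n, pow_ne_zero n ha.2.2⟩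

lemma unif_neg_of {F : Type} [Field F] {O : ValuationSubring F} {ϖ x : F} (h : Unif O ϖ)
    (hx : x ∈ O) (m : ℤ) (hm : 0 < m) (hu : IsU O (x * ϖ ^ m)) : False := by
  apply h.2.2.1
  obtain ⟨n, rfl⟩ : ∃ n : ℕ, m = n + 1 := ⟨(m - 1).toNat, by omega⟩
  have h1 : ϖ⁻¹ = x * ϖ ^ n * (x * ϖ ^ ((n : ℤ) + 1))⁻¹ := by
    have h2 := hu.2.2
    have hϖ := h.2.1
    rw [zpow_add₀ hϖ, zpow_natCast, zpow_one] at h2 ⊢
    have hx0 : x ≠ 0 := fun h0 => h2 (by rw [h0, zero_mul])
    field_simp
  rw [h1]
  exact mul_mem (mul_mem hx (pow_mem h.1 n)) hu.2.1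

lemma unif_irreducible {F : Type} [Field F] {O : ValuationSubring F} [IsDiscreteValuationRing O]
    {ϖ : F} (h : Unif O ϖ) : Irreducible (⟨ϖ, h.1⟩ : O) := by
  rw [IsDiscreteValuationRing.irreducible_iff_uniformizer]
  apply le_antisymm
  · intro x hx
    by_cases hx0 : x = 0
    · rw [hx0]; exact zero_mem _
    have hxF : (x : F) ≠ 0 := fun h0 => hx0 (Subtype.ext h0)
    obtain ⟨i, hi⟩ := h.2.2.2 x hxF
    have hneg : i < 0 := by
      by_contra hcon
      push Not at hcon
      obtain ⟨n, rfl⟩ := Int.eq_ofNat_of_zero_le hcon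
      rw [zpow_natCast] at hi
      rw [IsLocalRing.mem_maximalIdeal, mem_nonunits_iff] at hx
      apply hx
      refine IsUnit.of_mul_eq_one (⟨ϖ ^ n * ((x : F) * ϖ ^ n)⁻¹, mul_mem (pow_mem h.1 n) hi.2.1⟩ : O) ?_
      apply Subtype.ext
      change (x : F) * (ϖ ^ n * ((x : F) * ϖ ^ n)⁻¹) = 1
      have := h.2.1
      field_simp
    obtain ⟨n, hn⟩ : ∃ n : ℕ, -i = n + 1 := ⟨(-i - 1).toNat, by omega⟩
    rw [Ideal.mem_span_singleton]
    refine ⟨⟨(x : F) * ϖ ^ i * ϖ ^ n, mul_mem hi.1 (pow_mem h.1 n)⟩, ?_⟩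
    apply Subtype.ext
    change (x : F) = ϖ * ((x : F) * ϖ ^ i * ϖ ^ n)
    have e : ϖ ^ i * ϖ ^ n * ϖ = 1 := by
      rw [← zpow_natCast ϖ n, ← zpow_add₀ h.2.1, ← zpow_add_one₀ h.2.1,
        show i + n + 1 = 0 by omega, zpow_zero]
    calc (x : F) = x * (ϖ ^ i * ϖ ^ n * ϖ) := by rw [e, mul_one]
      _ = _ := by ring
  · rw [Ideal.span_le, Set.singleton_subset_iff, SetLike.mem_coe, IsLocalRing.mem_maximalIdeal,
      mem_nonunits_iff]
    intro hu
    obtain ⟨y, hy⟩ := hu.exists_right_inv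
    apply h.2.2.1
    have : ϖ * (y : F) = 1 := congrArg Subtype.val hy
    rw [inv_eq_of_mul_eq_one_right this]
    exact y.2

lemma exists_exp {R : Type} [Field R] (w : Valuation R (WithZero (Multiplicative ℤ))) (x : R)
    (hx : x ≠ 0) : ∃ e : ℤ, w x = WithZero.exp e :=
  ⟨WithZero.log (w x), (WithZero.exp_log (by simpa using hx)).symm⟩

theorem hNormVal : StNormVal := by
  intro K F R _ _ _ _ _ _ _ _ _ O ϖ hO hϖ N u z hu hz hN
  obtain ⟨hdvr, K₁, _, _, ρ, hodd, hsurj, hcompat⟩ := hO
  haveI : CharZero F := charZero_of_injective_algebraMap (algebraMap K F).injective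
  have hmem : ∀ c, algebraMap K F c ∈ O := fun c => (hcompat c).choose
  letI : Algebra K O := ((algebraMap K F).codRestrict O hmem).toAlgebra
  letI : Algebra O R := ((algebraMap F R).comp (algebraMap O F)).toAlgebra
  haveI : IsScalarTower O F R := IsScalarTower.of_algebraMap_eq (fun _ => rfl)
  haveI : IsScalarTower K O R := IsScalarTower.of_algebraMap_eq
    (fun c => IsScalarTower.algebraMap_apply K F R c)
  -- residue field
  have h1 : Odd (Module.finrank K (O ⧸ IsLocalRing.maximalIdeal O)) := by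
    let ρ' : O →ₐ[K] K₁ := { ρ with commutes' := fun c => (hcompat c).choose_spec }
    have hker : RingHom.ker ρ' = IsLocalRing.maximalIdeal O :=
      IsLocalRing.eq_maximalIdeal (RingHom.ker_isMaximal_of_surjective ρ' hsurj)
    have e := Ideal.quotientKerAlgEquivOfSurjective (f := ρ') hsurj
    rw [← hker, e.toLinearEquiv.finrank_eq]
    exact hodd
  -- an integral multiple
  have halg : IsAlgebraic O z := by
    have : IsAlgebraic F z := Algebra.IsAlgebraic.isAlgebraic z
    exact (IsFractionRing.isAlgebraic_iff O F R).mpr this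
  obtain ⟨y, hy0, hyi⟩ : ∃ y : O, y ≠ 0 ∧ IsIntegral O (algebraMap O R y * z) := by
    obtain ⟨y, hy0, hy⟩ := halg.exists_integral_multiple
    exact ⟨y, hy0, by rw [← Algebra.smul_def]; exact hy⟩
  have hyF : (y : F) ≠ 0 := fun h0 => hy0 (Subtype.ext h0)
  have hyR : algebraMap O R y ≠ 0 := by
    change algebraMap F R (y : F) ≠ 0
    simpa using hyF
  have hyI : IsIntegral O (algebraMap O R y * (algebraMap O R y * z)) :=
    isIntegral_algebraMap.mul hyi
  set z' := algebraMap O R y * (algebraMap O R y * z) with hz'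
  have hz'0 : z' ≠ 0 := mul_ne_zero hyR (mul_ne_zero hyR hz)
  obtain ⟨i, hi⟩ := hN
  obtain ⟨j, hj⟩ := hϖ.2.2.2 (y : F) hyF
  set d := Module.finrank F R with hd
  have hNz' : Algebra.norm F z' = (y : F) ^ (2 * d) * Algebra.norm F z := by
    have e : z' = algebraMap F R ((y : F) ^ 2) * z := by
      rw [hz', map_pow]
      change algebraMap F R (y : F) * (algebraMap F R (y : F) * z) = _
      ring
    rw [e, map_mul, Algebra.norm_algebraMap, ← pow_mul]
  set m : ℤ := j * (2 * d) + (2 * i + 1) with hm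
  have hunit : IsU O (Algebra.norm F z' * ϖ ^ m) := by
    have e : Algebra.norm F z' * ϖ ^ m =
        ((y : F) * ϖ ^ j) ^ (2 * d) * (Algebra.norm F z * ϖ ^ (2 * i + 1)) := by
      rw [hNz', hm, zpow_add₀ hϖ.2.1, mul_pow, ← zpow_natCast (ϖ ^ j), ← zpow_mul]
      push_cast
      ring
    rw [e]
    exact isU_mul (isU_pow hj _) hi
  have hNO : Algebra.norm F z' ∈ O := by
    have h2 : IsIntegral O (Algebra.norm F z') := Algebra.isIntegral_norm F hyI
    obtain ⟨t, ht⟩ := (IsIntegrallyClosed.isIntegral_iff (R := O) (K := F)).mp h2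
    rw [← ht]; exact t.2
  have hmodd : Odd m := ⟨j * d + i, by rw [hm]; ring⟩
  have hmneg : m < 0 := by
    rcases lt_trichotomy m 0 with h | h | h
    · exact h
    · rw [h] at hmodd; exact absurd hmodd (by decide)
    · exact (unif_neg_of hϖ hNO m h hunit).elim
  obtain ⟨k, hk⟩ : ∃ k : ℕ, -m = k := ⟨(-m).toNat, by omega⟩
  have hkodd : Odd k := by
    have : Odd (k : ℤ) := by rw [← hk, odd_neg]; exact hmodd
    exact_mod_cast this
  let a : Oˣ := ⟨⟨_, hunit.1⟩, ⟨_, hunit.2.1⟩, Subtype.ext (mul_inv_cancel₀ hunit.2.2),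
    Subtype.ext (inv_mul_cancel₀ hunit.2.2)⟩
  have hfin : Algebra.norm F z' = algebraMap O F (a * (⟨ϖ, hϖ.1⟩ : O) ^ k) := by
    change Algebra.norm F z' = Algebra.norm F z' * ϖ ^ m * ϖ ^ k
    rw [mul_assoc, ← zpow_natCast, ← zpow_add₀ hϖ.2.1, ← hk, add_neg_cancel, zpow_zero, mul_one]
  obtain ⟨P, hP, hOP, w, hwP, m', hm', hwz⟩ := place_gen (K := K) (A := O) (F := F) h1 z' hz'0 hyI
    ⟨ϖ, hϖ.1⟩ (unif_irreducible hϖ) a k hkodd hfin
  -- choice of `c`
  obtain ⟨i₁, hi₁⟩ : ∃ i, u i ≠ 0 := by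
    by_contra hcon; push Not at hcon; exact hu (funext hcon)
  obtain ⟨i₀, -, hmax⟩ := Finset.exists_max_image Finset.univ (fun i => w (u i))
    ⟨i₁, Finset.mem_univ _⟩
  have hi₀ : u i₀ ≠ 0 := by
    intro h0
    have := hmax i₁ (Finset.mem_univ _)
    rw [h0, map_zero, le_zero_iff, Valuation.zero_iff] at this
    exact hi₁ this
  refine ⟨P, (u i₀)⁻¹, hP, fun f hf => hOP ⟨f, hf⟩, inv_ne_zero hi₀, ?_, ⟨i₀, ?_⟩, ?_⟩
  · intro l
    rw [← hwP, Valuation.mem_valuationSubring_iff, map_mul, map_inv₀]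
    have h3 : w (u i₀) ≠ 0 := by simpa using hi₀
    have := hmax l (Finset.mem_univ _)
    calc (w (u i₀))⁻¹ * w (u l) ≤ (w (u i₀))⁻¹ * w (u i₀) := by gcongr
      _ = 1 := inv_mul_cancel₀ h3
  · rw [inv_mul_cancel₀ hi₀]
    exact ⟨one_mem _, by rw [inv_one]; exact one_mem _, one_ne_zero⟩
  · rintro ⟨h3, h4, h5⟩
    rw [← hwP, Valuation.mem_valuationSubring_iff] at h3 h4
    have h6 : w ((u i₀)⁻¹ ^ 2 * z) = 1 := by
      refine le_antisymm h3 ?_
      rw [map_inv₀] at h4
      exact (inv_le_one₀ (by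
        rw [zero_lt_iff]; simpa using h5)).mp h4
    obtain ⟨e1, he1⟩ := exists_exp w (u i₀) hi₀
    obtain ⟨e2, he2⟩ := exists_exp w z hz
    obtain ⟨e3, he3⟩ := exists_exp w _ hyR
    rw [hz', map_mul, map_mul, he3, he2, ← WithZero.exp_add, ← WithZero.exp_add,
      WithZero.exp_inj] at hwz
    rw [map_mul, map_pow, map_inv₀, he1, he2, ← WithZero.exp_neg, ← WithZero.exp_nsmul,
      ← WithZero.exp_add, ← WithZero.exp_zero, WithZero.exp_inj] at h6
    rw [nsmul_eq_mul] at h6
    push_cast at h6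
    rcases hm' with ⟨q, hq⟩
    omega

end Pool.Agent.Helper77.RED
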